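import Mathlib
import Pool.Agent.H744R2.KZ.Props

/-!
Task N_two: the fibre of a von Neumann algebra without abelian projections is a `2 × 2` matrix
algebra.
-/

open scoped ComplexOrder InnerProductSpace ComplexConjugate Topology
open Finset Filter

noncomputable section

namespace H744R2.KZ

open H759R2.Kad

universe u

namespace N_two_aux

/-- Matrix units (`2 × 2`). -/
structure MU2 {R : Type*} [Ring R] [StarRing R] (e : Fin 2 → Fin 2 → R) : Prop where
  mul_eq : ∀ i j k, e i j * e j k = e i k
  mul_ne : ∀ i j k l, j ≠ k → e i j * e k l = 0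
  st : ∀ i j, star (e i j) = e j i

/-- The matrix units of a partial isometry. -/
def eu {R : Type*} [Ring R] [StarRing R] (w : R) : Fin 2 → Fin 2 → R :=
  ![![star w * w, star w], ![w, w * star w]]

theorem mu_eu {R : Type*} [Ring R] [StarRing R] (v : R) (h0 : v * v = 0)
    (hvv : v * star v * v = v) : MU2 (eu v) := by
  have h0' : star v * star v = 0 := by
    rw [← star_mul, h0, star_zero]
  have hvv' : star v * v * star v = star v := by
    have := congrArg star hvv
    simpa [star_mul, mul_assoc] using this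
  have h0l : ∀ w, v * (v * w) = 0 := fun w => by rw [← mul_assoc, h0, zero_mul]
  have h0l' : ∀ w, star v * (star v * w) = 0 := fun w => by rw [← mul_assoc, h0', zero_mul]
  refine ⟨?_, ?_, ?_⟩
  · intro i j k
    fin_cases i <;> fin_cases j <;> fin_cases k <;>
      simp [eu, mul_assoc] <;> simp only [← mul_assoc, hvv, hvv']
  · intro i j k l hjk
    fin_cases i <;> fin_cases j <;> fin_cases k <;> fin_cases l <;>
      first
      | exact absurd rfl hjk
      | (simp [eu, mul_assoc, h0, h0', h0l, h0l'])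
  · intro i j
    fin_cases i <;> fin_cases j <;> simp [eu]

theorem sum_eu {R : Type*} [Ring R] [StarRing R] (v : R) :
    ∑ i, eu v i i = star v * v + v * star v := by
  simp [eu, Fin.sum_univ_two]

/-- Recover `v v* v = v`. -/
theorem pi_of {B : Type*} [CStarAlgebra B] (v z : B) (h0 : v * v = 0)
    (h1 : star v * v + v * star v = z) (hz : z * z = z) (hzs : star z = z)
    (hc : z * v = v * z) : v * star v * v = v := by
  have h0' : star v * star v = 0 := by
    rw [← star_mul, h0, star_zero]
  set a := star v * v with ha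
  have ha_sa : star a = a := by rw [ha, star_mul, star_star]
  have hza : z * a = a * a := by
    rw [← h1, add_mul, ha]
    have : v * star v * (star v * v) = 0 := by
      rw [mul_assoc, ← mul_assoc (star v) (star v), h0', zero_mul, mul_zero]
    rw [this, add_zero]
  have h3 : a * a * a = a * a := by
    have e1 : z * (z * a) = z * a := by rw [← mul_assoc, hz]
    rw [hza, ← mul_assoc, hza] at e1
    exact e1
  have h4 : a * a = a := by
    have hx : (a * a - a) * (a * a - a) = 0 := by
      have e : (a * a - a) * (a * a - a) = a * a * a * a - a * a * a - (a * a * a - a * a) := by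
        noncomm_ring
      rw [e, h3, h3]
      simp
    have hs : star (a * a - a) = a * a - a := by
      rw [star_sub, star_mul, ha_sa]
    have : star (a * a - a) * (a * a - a) = 0 := by rw [hs, hx]
    have := (CStarRing.star_mul_self_eq_zero_iff (a * a - a)).1 this
    exact sub_eq_zero.1 this
  have h5 : star (v - z * v) * (v - z * v) = 0 := by
    rw [star_sub, star_mul, hzs]
    have e : (star v - star v * z) * (v - z * v) =
        star v * v - star v * z * v - star v * z * v + star v * (z * z) * v := by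
      noncomm_ring
    rw [e, hz]
    have e2 : star v * z * v = a * z := by rw [mul_assoc, hc, ← mul_assoc]
    have e3 : z * a = a * z := by
      rw [ha, ← mul_assoc]
      have := congrArg star hc
      rw [star_mul, star_mul, hzs] at this
      rw [← this, mul_assoc, hc, mul_assoc]
    rw [e2, ← e3, hza, h4]
    simp [← ha]
  have h6 := sub_eq_zero.1 ((CStarRing.star_mul_self_eq_zero_iff (v - z * v)).1 h5)
  have h7 : z * v = v * star v * v := by
    rw [← h1, add_mul, ha, mul_assoc, h0, mul_zero, zero_add]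
  rw [← h7]
  exact h6.symm

variable {B : Type u} [CStarAlgebra B]

/-- The relative commutant of the matrix units. -/
def rc (e : Fin 2 → Fin 2 → B) : StarSubalgebra ℂ B :=
  StarSubalgebra.centralizer ℂ (Set.range fun q : Fin 2 × Fin 2 => e q.1 q.2)

theorem mem_rc {e : Fin 2 → Fin 2 → B} (he : MU2 e) {x : B} :
    x ∈ rc e ↔ ∀ i j, e i j * x = x * e i j := by
  rw [rc, StarSubalgebra.mem_centralizer_iff]
  constructor
  · intro h i j
    exact (h (e i j) ⟨(i, j), rfl⟩).1
  · rintro h3 g ⟨⟨i, j⟩, rfl⟩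
    refine ⟨h3 i j, ?_⟩
    simp only [he.st]
    exact h3 j i

theorem rc_closed {e : Fin 2 → Fin 2 → B} (he : MU2 e) : IsClosed (rc e : Set B) := by
  have : (rc e : Set B) = ⋂ i, ⋂ j, {x | e i j * x = x * e i j} := by
    ext x
    simp only [SetLike.mem_coe, mem_rc he, Set.mem_iInter, Set.mem_ofPred_eq]
  rw [this]
  refine isClosed_iInter fun i => isClosed_iInter fun j => isClosed_eq ?_ ?_
  · exact continuous_const.mul continuous_id
  · exact continuous_id.mul continuous_const

/-- Coefficients. -/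
def cf (e : Fin 2 → Fin 2 → B) (x : B) (i j : Fin 2) : B :=
  ∑ r, e r i * x * e j r

theorem cf_mem {e : Fin 2 → Fin 2 → B} (he : MU2 e) (x : B) (i j : Fin 2) :
    cf e x i j ∈ rc e := by
  rw [mem_rc he]
  refine fun k l => ?_
  rw [cf, mul_sum, sum_mul]
  rw [Finset.sum_eq_single l, Finset.sum_eq_single k]
  · rw [mul_assoc (e k i * x), he.mul_eq, ← mul_assoc, ← mul_assoc, he.mul_eq]
  · intro r _ hr
    rw [mul_assoc (e r i * x), he.mul_ne _ _ _ _ hr, mul_zero]
  · simp
  · intro r _ hr
    rw [← mul_assoc, ← mul_assoc, he.mul_ne _ _ _ _ hr.symm, zero_mul, zero_mul]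
  · simp

theorem cf_mul {e : Fin 2 → Fin 2 → B} (he : MU2 e) (h1 : ∑ i, e i i = 1) (x y : B)
    (i j : Fin 2) : cf e (x * y) i j = ∑ k, cf e x i k * cf e y k j := by
  have h2 : ∀ k, cf e x i k * cf e y k j = ∑ r, e r i * x * e k k * y * e j r := by
    intro k
    rw [cf, cf, sum_mul]
    refine Finset.sum_congr rfl fun r _ => ?_
    rw [mul_sum, Finset.sum_eq_single r]
    · rw [show e r i * x * e k r * (e r k * y * e j r) = e r i * x * (e k r * e r k) * y * e j r by
        simp only [mul_assoc], he.mul_eq]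
    · intro s _ hs
      rw [show e r i * x * e k r * (e s k * y * e j s) = e r i * x * (e k r * e s k) * y * e j s by
        simp only [mul_assoc], he.mul_ne _ _ _ _ hs.symm]
      simp
    · simp
  simp only [h2]
  rw [Finset.sum_comm, cf]
  refine Finset.sum_congr rfl fun r _ => ?_
  rw [← sum_mul, ← sum_mul, ← mul_sum, h1]
  simp only [mul_assoc, one_mul]

theorem cf_star {e : Fin 2 → Fin 2 → B} (he : MU2 e) (x : B) (i j : Fin 2) :
    star (cf e x j i) = cf e (star x) i j := by
  rw [cf, cf, star_sum]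
  refine Finset.sum_congr rfl fun r _ => ?_
  rw [star_mul, star_mul, he.st, he.st, mul_assoc]

theorem cf_add (e : Fin 2 → Fin 2 → B) (x y : B) (i j : Fin 2) :
    cf e (x + y) i j = cf e x i j + cf e y i j := by
  simp only [cf, mul_add, add_mul, sum_add_distrib]

theorem cf_smul (e : Fin 2 → Fin 2 → B) (c : ℂ) (x : B) (i j : Fin 2) :
    cf e (c • x) i j = c • cf e x i j := by
  simp only [cf, mul_smul_comm, smul_mul_assoc, smul_sum]

theorem cf_rec {e : Fin 2 → Fin 2 → B} (he : MU2 e) (h1 : ∑ i, e i i = 1) (x : B) :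
    ∑ i, ∑ j, cf e x i j * e i j = x := by
  have h2 : ∀ i j, cf e x i j * e i j = e i i * x * e j j := by
    intro i j
    rw [cf, sum_mul, Finset.sum_eq_single i]
    · rw [mul_assoc, he.mul_eq]
    · intro r _ hr
      rw [mul_assoc, he.mul_ne _ _ _ _ hr, mul_zero]
    · simp
  simp only [h2]
  simp only [← mul_sum, h1, mul_one]
  rw [← sum_mul, h1, one_mul]

theorem cf_inv {e : Fin 2 → Fin 2 → B} (he : MU2 e) (h1 : ∑ i, e i i = 1)
    (a : Fin 2 → Fin 2 → B)
    (ha : ∀ i j k l, e i j * a k l = a k l * e i j) (i j : Fin 2) :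
    cf e (∑ k, ∑ l, a k l * e k l) i j = a i j := by
  rw [cf]
  have h2 : ∀ r, e r i * (∑ k, ∑ l, a k l * e k l) * e j r = a i j * e r r := by
    intro r
    rw [mul_sum, sum_mul, Finset.sum_eq_single i]
    · rw [mul_sum, sum_mul, Finset.sum_eq_single j]
      · rw [← mul_assoc, ha, mul_assoc (a i j), he.mul_eq, mul_assoc, he.mul_eq]
      · intro l _ hl
        rw [← mul_assoc, ha, mul_assoc (a i l), he.mul_eq, mul_assoc, he.mul_ne _ _ _ _ hl,
          mul_zero]
      · simp
    · intro k _ hk
      rw [mul_sum, sum_mul]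
      refine Finset.sum_eq_zero fun l _ => ?_
      rw [← mul_assoc, ha, mul_assoc (a k l), he.mul_ne _ _ _ _ hk.symm, mul_zero, zero_mul]
    · simp
  simp only [h2]
  rw [← mul_sum, h1, mul_one]

/-- The isomorphism. -/
def iso {e : Fin 2 → Fin 2 → B} (he : MU2 e) (h1 : ∑ i, e i i = 1) :
    B ≃⋆ₐ[ℂ] CStarMatrix (Fin 2) (Fin 2) (rc e) where
  toFun x := CStarMatrix.ofMatrix fun i j => ⟨cf e x i j, cf_mem he x i j⟩
  invFun a := ∑ i, ∑ j, (a i j : B) * e i j
  left_inv x := cf_rec he h1 x
  right_inv a := by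
    refine CStarMatrix.ext fun i j => Subtype.ext ?_
    exact cf_inv he h1 (fun i j => (a i j : B))
      (fun i j k l => (mem_rc he).1 (a k l).2 i j) i j
  map_mul' x y := by
    refine CStarMatrix.ext fun i j => Subtype.ext ?_
    rw [CStarMatrix.mul_apply]
    have := cf_mul he h1 x y i j
    rw [Fin.sum_univ_two] at this ⊢
    exact this
  map_add' x y := by
    exact CStarMatrix.ext fun i j => Subtype.ext (cf_add e x y i j)
  map_star' x := by
    refine CStarMatrix.ext fun i j => ?_
    rw [CStarMatrix.star_apply]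
    exact Subtype.ext (cf_star he x i j).symm
  map_smul' c x := by
    exact CStarMatrix.ext fun i j => Subtype.ext (cf_smul e c x i j)

theorem map_eu {A : Type*} [Ring A] [StarRing A] [Algebra ℂ A] (p : A →⋆ₐ[ℂ] B) (w : A)
    (i j : Fin 2) : p (eu w i j) = eu (p w) i j := by
  fin_cases i <;> fin_cases j <;> simp [eu, map_star]

end N_two_aux

open N_two_aux in
theorem prove_N_two (h1 : L_half.{u}) (h2 : N_comm.{u}) : N_two.{u} := by
  intro H _ _ _ M z B _ p hp hna
  obtain ⟨v, hv, hvv0, hvz⟩ := h1 H M z hp.cp hna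
  obtain ⟨N, hN, hzN, hnaN, hcen⟩ := h2 H M z v hp.cp hna hv hvv0 hvz
  have hzM : z ∈ M := hp.cp.2.1
  set w : M.toStarSubalgebra := ⟨v, hv⟩ with hw
  have hzcp := hp.cp
  -- the partial isometry
  have hpi0 : v * star v * v = v := by
    refine pi_of v z hvv0 hvz ?_ ?_ (hzcp.2.2 v hv)
    · exact hzcp.1.2
    · exact hzcp.1.1
  have hw0 : w * w = 0 := Subtype.ext hvv0
  have hwpi : w * star w * w = w := Subtype.ext hpi0
  have hV0 : p w * p w = 0 := by rw [← map_mul, hw0, map_zero]
  have hVpi : p w * star (p w) * p w = p w := by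
    rw [← map_star, ← map_mul, ← map_mul, hwpi]
  have hV1 : star (p w) * p w + p w * star (p w) = 1 := by
    rw [← map_star, ← map_mul, ← map_mul, ← map_add, ← hp.one]
    congr 1
    exact Subtype.ext hvz
  have heM : MU2 (eu w) := mu_eu w hw0 hwpi
  have he : MU2 (eu (p w)) := mu_eu (p w) hV0 hVpi
  have hsum : ∑ i, eu (p w) i i = 1 := by rw [sum_eu, hV1]
  have hcl := rc_closed he
  let _ : CStarAlgebra (rc (eu (p w))) := StarSubalgebra.cstarAlgebra _ (h_closed := hcl)
  have hNM : N.toStarSubalgebra ≤ M.toStarSubalgebra := fun a ha => ((hN a).1 ha).1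
  -- elements of `N` commute with the matrix units
  have hcomm : ∀ a : N.toStarSubalgebra, ∀ i j,
      eu w i j * StarSubalgebra.inclusion hNM a = StarSubalgebra.inclusion hNM a * eu w i j := by
    intro a i j
    have h3 := (hN a.1).1 a.2
    have e1 : v * a.1 = a.1 * v := h3.2.1.symm
    have e2 : star v * a.1 = a.1 * star v := h3.2.2.symm
    apply Subtype.ext
    fin_cases i <;> fin_cases j
    · change star v * v * a.1 = a.1 * (star v * v)
      rw [mul_assoc, e1, ← mul_assoc, e2, mul_assoc]
    · exact e2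
    · exact e1
    · change v * star v * a.1 = a.1 * (v * star v)
      rw [mul_assoc, e2, ← mul_assoc, e1, mul_assoc]
  let q0 : N.toStarSubalgebra →⋆ₐ[ℂ] B := p.comp (StarSubalgebra.inclusion hNM)
  have hq0 : ∀ a, q0 a ∈ rc (eu (p w)) := by
    intro a
    rw [mem_rc he]
    intro i j
    have := congrArg p (hcomm a i j)
    rw [map_mul, map_mul, map_eu] at this
    exact this
  let q : N.toStarSubalgebra →⋆ₐ[ℂ] rc (eu (p w)) := StarAlgHom.codRestrict q0 _ hq0
  refine ⟨N, rc (eu (p w)), inferInstance, q, ⟨hzN, ?_, ?_, ?_⟩, hnaN, ⟨iso he hsum⟩⟩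
  · -- surjectivity
    rintro ⟨b, hb⟩
    obtain ⟨a, ha⟩ := hp.surj b
    have hb' := (mem_rc he).1 hb
    let a' : M.toStarSubalgebra := ∑ r, eu w r 0 * a * eu w 0 r
    have ha'c : ∀ k l, eu w k l * a' = a' * eu w k l := by
      intro k l
      simp only [a']
      rw [mul_sum, sum_mul]
      rw [Finset.sum_eq_single l, Finset.sum_eq_single k]
      · rw [mul_assoc (eu w k 0 * a), heM.mul_eq, ← mul_assoc, ← mul_assoc, heM.mul_eq]
      · intro r _ hr
        rw [mul_assoc (eu w r 0 * a), heM.mul_ne _ _ _ _ hr, mul_zero]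
      · simp
      · intro r _ hr
        rw [← mul_assoc, ← mul_assoc, heM.mul_ne _ _ _ _ hr.symm, zero_mul, zero_mul]
      · simp
    have ha'N : (a' : H →L[ℂ] H) ∈ N := by
      rw [hN]
      refine ⟨a'.2, ?_, ?_⟩
      · have := congrArg (fun x : M.toStarSubalgebra => (x : H →L[ℂ] H)) (ha'c 1 0)
        exact this.symm
      · have := congrArg (fun x : M.toStarSubalgebra => (x : H →L[ℂ] H)) (ha'c 0 1)
        exact this.symm
    refine ⟨⟨a', ha'N⟩, ?_⟩
    apply Subtype.ext
    change p (StarSubalgebra.inclusion hNM ⟨a', ha'N⟩) = b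
    have h4 : StarSubalgebra.inclusion hNM ⟨a', ha'N⟩ = a' := rfl
    rw [h4]
    simp only [a', map_sum, map_mul, map_eu, ha]
    have h5 : ∀ r, eu (p w) r 0 * b * eu (p w) 0 r = b * eu (p w) r r := by
      intro r
      rw [hb', mul_assoc, he.mul_eq]
    simp only [h5]
    rw [← mul_sum, hsum, mul_one]
  · intro c hc
    have hcz := hcen c hc
    have hcM : (c : H →L[ℂ] H) ∈ M := ((hN c).1 c.2).1
    obtain ⟨s, hs⟩ := hp.scal ⟨(c : H →L[ℂ] H) * z, hcz.1⟩ hcz
    refine ⟨s, ?_⟩
    apply Subtype.ext
    change p (StarSubalgebra.inclusion hNM c) = algebraMap ℂ B s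
    rw [← hs]
    have h6 : (⟨(c : H →L[ℂ] H) * z, hcz.1⟩ : M.toStarSubalgebra) =
        StarSubalgebra.inclusion hNM c * ⟨z, hp.cp.2.1⟩ := rfl
    rw [h6, map_mul, hp.one, mul_one]
  · apply Subtype.ext
    exact hp.one

end H744R2.KZ
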